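import Pool.Agent.Work.MP_e024c5_h27.All

/-!
# MP_e024c5_nt, RunLength

`n` is non-MC if the supremum `R_n` of the radii of the circles that enclose exactly `n` lattice
points is not attained.  Every run of consecutive non-MC numbers that starts at `m` has length at
most `C (m + 1)^ε`.
-/

open Pool.Agent.Work.MP_e024c5_h27

/-- For every `ε > 0` there is a constant `C` such that `L ≤ C (m + 1)^ε` whenever none of
`m, m + 1, …, m + L - 1` is an MC number. -/
theorem Pool.Agent.Results.MP_e024c5_nt.RunLength.result :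
    ∀ ε : ℝ, 0 < ε → ∃ C : ℝ, 0 < C ∧ ∀ m L : ℕ, (∀ j < L, ¬ MC (m + j)) →
      (L : ℝ) ≤ C * ((m : ℝ) + 1) ^ ε :=
  main_thm
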